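import Mathlib
import Pool.Agent.H76DS.C

set_option autoImplicit false

/-!
# Digit sums of multiples of `n`: an explicit finite description for every pair `(b, n)`

Write `n = r * m` with `r ∣ b ^ k` and `m ∣ b ^ t - 1` (always possible).  The digit sums of the
positive multiples of `n` are exactly the numbers `digitSum b (j * m) + (b - 1) * i` with `0 ≤ i`
and `m ≤ j * m ≤ b ^ t - 1`.
-/

namespace Pool.Agent.Results.MP_6ae9d2_nt.FiniteDescription

/-- The base-`b` digit sum of `N`. -/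
def digitSum (b N : ℕ) : ℕ := (Nat.digits b N).sum

/-- The set of base-`b` digit sums of the positive multiples of `n`. -/
def Out (b n : ℕ) : Set ℕ := {u | ∃ N : ℕ, 0 < N ∧ n ∣ N ∧ digitSum b N = u}

theorem result : ∀ b n : ℕ, 2 ≤ b → 1 ≤ n →
    (∃ k t r m : ℕ, 1 ≤ t ∧ r ∣ b ^ k ∧ m ∣ b ^ t - 1 ∧ n = r * m) ∧
    (∀ k t r m : ℕ, 1 ≤ t → r ∣ b ^ k → m ∣ b ^ t - 1 → n = r * m →
      Out b n = {u | ∃ j i : ℕ, 1 ≤ j ∧ j * m ≤ b ^ t - 1 ∧
        u = digitSum b (j * m) + (b - 1) * i}) :=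
  Pool.Agent.H76DS.finite_description

end Pool.Agent.Results.MP_6ae9d2_nt.FiniteDescription
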