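import Mathlib
import Pool.Agent.H76DS.C

set_option autoImplicit false

/-!
# Digit sums of multiples of `n`: closed form when the part of `n` coprime to `b` divides `b ^ 2 - 1`
-/

namespace Pool.Agent.Results.MP_6ae9d2_nt.OrderTwoClosedForm

/-- The base-`b` digit sum of `N`. -/
def digitSum (b N : ℕ) : ℕ := (Nat.digits b N).sum

/-- The set of base-`b` digit sums of the positive multiples of `n`. -/
def Out (b n : ℕ) : Set ℕ := {u | ∃ N : ℕ, 0 < N ∧ n ∣ N ∧ digitSum b N = u}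

theorem result : ∀ b k r n : ℕ, 2 ≤ b → r ∣ b ^ k → n ∣ b ^ 2 - 1 → ∀ u : ℕ,
    u ∈ Out b (r * n) ↔
      0 < u ∧ Nat.gcd (b - 1) n ∣ u ∧
        (n / Nat.gcd (b - 1) n ≤ u ∨ (2 ∣ u ∧ n ∣ (b + 1) * (u / 2))) :=
  Pool.Agent.H76DS.order_two

end Pool.Agent.Results.MP_6ae9d2_nt.OrderTwoClosedForm
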