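import Mathlib
import Pool.Agent.H76DS.C

set_option autoImplicit false

/-!
# Digit sums of multiples of `n`: closed form when the part of `n` coprime to `b` is a repunit times a
divisor of `b - 1` (this includes `b ^ t - 1`).
-/

namespace Pool.Agent.Results.MP_6ae9d2_nt.RepunitClosedForm

open Pool.Agent.H76DS

/-- The base-`b` digit sum of `N`. -/
def digitSum (b N : ℕ) : ℕ := (Nat.digits b N).sum

/-- The set of base-`b` digit sums of the positive multiples of `n`. -/
def Out (b n : ℕ) : Set ℕ := {u | ∃ N : ℕ, 0 < N ∧ n ∣ N ∧ digitSum b N = u}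

lemma ds_repunit {b a : ℕ} (hb : 2 ≤ b) (ha : a < b) (t : ℕ) :
    ds b (a * ∑ i ∈ Finset.range t, b ^ i) = t * a := by
  induction t with
  | zero => simp [ds_zero]
  | succ t ih =>
    have e : a * ∑ i ∈ Finset.range (t + 1), b ^ i =
        b * (a * ∑ i ∈ Finset.range t, b ^ i) + a := by
      rw [geom_sum_succ]
      ring
    rw [e, ds_cons hb ha, ih]
    ring

theorem result : ∀ b k r c t : ℕ, 2 ≤ b → 1 ≤ t → r ∣ b ^ k → c ∣ b - 1 → ∀ u : ℕ,
    u ∈ Out b (r * (c * ∑ i ∈ Finset.range t, b ^ i)) ↔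
      ∃ j i : ℕ, 1 ≤ j ∧ c * j ≤ b - 1 ∧ u = t * (c * j) + (b - 1) * i := by
  intro b k r c t hb ht hr hc u
  have hcpos : 0 < c := Nat.pos_of_dvd_of_pos hc (by omega)
  have hrpos : 0 < r := Nat.pos_of_dvd_of_pos hr (Nat.pow_pos (by omega))
  have hgeom : (∑ i ∈ Finset.range t, b ^ i) * (b - 1) = b ^ t - 1 := by
    obtain ⟨x, rfl⟩ : ∃ x, b = x + 1 := ⟨b - 1, by omega⟩
    have h := geom_sum_mul_add x t
    simp only [Nat.add_sub_cancel]
    omega
  have hR : 0 < ∑ i ∈ Finset.range t, b ^ i := by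
    rcases Nat.eq_zero_or_pos (∑ i ∈ Finset.range t, b ^ i) with h | h
    · exfalso
      rw [h] at hgeom
      have h2 : 2 ≤ b ^ t := by
        calc 2 ≤ b := hb
          _ = b ^ 1 := (pow_one b).symm
          _ ≤ b ^ t := Nat.pow_le_pow_right (by omega) ht
      omega
    · exact h
  set R := ∑ i ∈ Finset.range t, b ^ i with hRdef
  have hm : c * R ∣ b ^ t - 1 := by
    rw [← hgeom, Nat.mul_comm c R]
    exact Nat.mul_dvd_mul_left R hc
  have hn : 1 ≤ r * (c * R) := Nat.mul_pos hrpos (Nat.mul_pos hcpos hR)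
  have hmain := (finite_description b (r * (c * R)) hb hn).2 k t r (c * R) ht hr hm rfl
  have hOut : Out b (r * (c * R)) = OutH b (r * (c * R)) := rfl
  rw [hOut, hmain]
  have key : ∀ j : ℕ, j * (c * R) ≤ b ^ t - 1 ↔ c * j ≤ b - 1 := by
    intro j
    rw [← hgeom]
    have e : j * (c * R) = R * (c * j) := by ring
    rw [e]
    exact ⟨fun h => Nat.le_of_mul_le_mul_left h hR, fun h => Nat.mul_le_mul_left R h⟩
  constructor
  · rintro ⟨j, i, h1, h2, h3⟩
    refine ⟨j, i, h1, (key j).mp h2, ?_⟩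
    have h4 := (key j).mp h2
    rw [h3]
    have e : j * (c * R) = (c * j) * R := by ring
    rw [e, hRdef, ds_repunit hb (by omega)]
  · rintro ⟨j, i, h1, h2, h3⟩
    refine ⟨j, i, h1, (key j).mpr h2, ?_⟩
    rw [h3]
    have e : j * (c * R) = (c * j) * R := by ring
    rw [e, hRdef, ds_repunit hb (by omega)]

end Pool.Agent.Results.MP_6ae9d2_nt.RepunitClosedForm
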