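import Mathlib
import Pool.Agent.H76DS.C

set_option autoImplicit false

/-!
# Every multiple `u ≥ n / d - 1` of `d = gcd (b - 1) n` is a digit sum of a multiple of `n`, and this
bound is best possible for infinitely many pairs.
-/

namespace Pool.Agent.Results.MP_6ae9d2_nt.SharpThreshold

open Pool.Agent.H76DS

/-- The base-`b` digit sum of `N`. -/
def digitSum (b N : ℕ) : ℕ := (Nat.digits b N).sum

/-- The set of base-`b` digit sums of the positive multiples of `n`. -/
def Out (b n : ℕ) : Set ℕ := {u | ∃ N : ℕ, 0 < N ∧ n ∣ N ∧ digitSum b N = u}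

theorem result :
    (∀ b n u : ℕ, 2 ≤ b → 1 ≤ n → 0 < u → Nat.gcd (b - 1) n ∣ u →
      n / Nat.gcd (b - 1) n ≤ u + 1 → u ∈ Out b n) ∧
    (∀ b d n : ℕ, 2 ≤ b → Even b → d ∣ b - 1 → n = d * (b + 1) →
      Nat.gcd (b - 1) n = d ∧ n / d = (b - 1) + 2 ∧ b - 1 ∉ Out b n) := by
  refine ⟨fun b n u hb hn hu hd h => exists_of_large hb hn hu hd h, ?_⟩
  intro b d n hb heven hd hn
  subst hn
  have hdpos : 0 < d := Nat.pos_of_dvd_of_pos hd (by omega)
  obtain ⟨c, hc⟩ := heven
  have hco : Nat.Coprime (b - 1) (b + 1) := by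
    have h1 : Nat.gcd (b - 1) (b + 1) ∣ 2 := by
      have h2 : Nat.gcd (b - 1) (b + 1) ∣ (b + 1) - (b - 1) :=
        Nat.dvd_sub (Nat.gcd_dvd_right _ _) (Nat.gcd_dvd_left _ _)
      have h3 : (b + 1) - (b - 1) = 2 := by omega
      rwa [h3] at h2
    rcases (Nat.dvd_prime Nat.prime_two).mp h1 with h4 | h4
    · exact h4
    · exfalso
      have h5 : 2 ∣ b - 1 := by
        rw [← h4]
        exact Nat.gcd_dvd_left _ _
      omega
  have hgcd : Nat.gcd (b - 1) (d * (b + 1)) = d := by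
    rw [Nat.Coprime.gcd_mul_right_cancel_right d hco.symm]
    exact Nat.gcd_eq_right hd
  refine ⟨hgcd, ?_, ?_⟩
  · rw [Nat.mul_div_cancel_left _ hdpos]
    omega
  · intro hmem
    have hdvd : d * (b + 1) ∣ b ^ 2 - 1 := by
      have h6 : b ^ 2 - 1 = (b - 1) * (b + 1) := by
        obtain ⟨e, rfl⟩ : ∃ e, b = e + 1 := ⟨b - 1, by omega⟩
        have : (e + 1) ^ 2 = e * (e + 1 + 1) + 1 := by ring
        rw [this]
        simp
      rw [h6]
      exact Nat.mul_dvd_mul_right hd (b + 1)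
    have hmem' : b - 1 ∈ OutH b (1 * (d * (b + 1))) := by
      rw [Nat.one_mul]
      exact hmem
    obtain ⟨_, _, h3⟩ := (order_two b 0 1 (d * (b + 1)) hb (by simp) hdvd (b - 1)).mp hmem'
    rw [hgcd, Nat.mul_div_cancel_left _ hdpos] at h3
    rcases h3 with h3 | ⟨h3, _⟩
    · omega
    · omega

end Pool.Agent.Results.MP_6ae9d2_nt.SharpThreshold
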